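import Mathlib

/-!
For every nonzero algebraic number `β` there is a non-diagonalizable `5 × 5` matrix with positive
algebraic entries having two vertices that are `β`-subgraph equivalent but not cospectral.

Construction: `N` is an integer nilpotent matrix of index four with zero row and column sums, `J` is
the all-ones matrix, and `A = N + y N² + z N³ + κ J` with `y, z` in the field generated by the real
part and the squared modulus of `β`, and `κ` a large natural number. Then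
`exp (β A)` has the same diagonal difference at the first two vertices as
`β (A) + β²/2 (A²) + β³/6 (A³)`, a multiple of `β (β² - 2 Re β · β + |β|²) = 0`.
-/

namespace Pool.Agent.Results.MP_513688_co.EveryBeta

set_option linter.unusedSimpArgs false

open Matrix

/-- An integer nilpotent matrix of index four with zero row sums and zero column sums. -/
def N1 : Matrix (Fin 5) (Fin 5) ℤ :=
  !![1, 1, 2, 0, -4; 1, 1, 0, 2, -4; 0, 0, -2, -2, 4; -2, -2, 0, 0, 4; 0, 0, 0, 0, 0]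

/-- The square of `N1`. -/
def N2 : Matrix (Fin 5) (Fin 5) ℤ :=
  !![2, 2, -2, -2, 0; -2, -2, 2, 2, 0; 4, 4, 4, 4, -16; -4, -4, -4, -4, 16; 0, 0, 0, 0, 0]

/-- The cube of `N1`. -/
def N3 : Matrix (Fin 5) (Fin 5) ℤ :=
  !![8, 8, 8, 8, -32; -8, -8, -8, -8, 32; 0, 0, 0, 0, 0; 0, 0, 0, 0, 0; 0, 0, 0, 0, 0]

/-- The all-ones matrix. -/
def J : Matrix (Fin 5) (Fin 5) ℤ := Matrix.of fun _ _ => 1

section
variable {R : Type*} [CommRing R]

/-- Cast an integer matrix to `R`. -/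
def ca (R : Type*) [CommRing R] (A : Matrix (Fin 5) (Fin 5) ℤ) : Matrix (Fin 5) (Fin 5) R :=
  (Int.castRingHom R).mapMatrix A

/-- The matrix `N + y N² + z N³ + κ J` over a commutative ring. -/
def MA (y z κ : R) : Matrix (Fin 5) (Fin 5) R :=
  ca R N1 + y • ca R N2 + z • ca R N3 + κ • ca R J

lemma mulc (A B : Matrix (Fin 5) (Fin 5) ℤ) : ca R A * ca R B = ca R (A * B) :=
  (map_mul _ A B).symm

lemma ca0 : ca R 0 = 0 := map_zero _

lemma h11 : N1 * N1 = N2 := by decide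
lemma h12 : N1 * N2 = N3 := by decide
lemma h21 : N2 * N1 = N3 := by decide
lemma h13 : N1 * N3 = 0 := by decide
lemma h31 : N3 * N1 = 0 := by decide
lemma h22 : N2 * N2 = 0 := by decide
lemma h23 : N2 * N3 = 0 := by decide
lemma h32 : N3 * N2 = 0 := by decide
lemma h33 : N3 * N3 = 0 := by decide
lemma h1J : N1 * J = 0 := by decide
lemma h2J : N2 * J = 0 := by decide
lemma h3J : N3 * J = 0 := by decide
lemma hJ1 : J * N1 = 0 := by decide
lemma hJ2 : J * N2 = 0 := by decide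
lemma hJ3 : J * N3 = 0 := by decide
lemma hJJ : J * J = (5 : ℤ) • J := by decide

lemma caJJ : ca R ((5 : ℤ) • J) = (5 : R) • ca R J := by
  ext i j
  simp [ca, J]

lemma MA_sq (y z κ : R) :
    MA y z κ ^ 2 = ca R N2 + (2 * y) • ca R N3 + (5 * κ ^ 2) • ca R J := by
  rw [pow_two, MA]
  simp only [mul_add, add_mul, smul_mul_assoc, mul_smul_comm, mulc, h11, h12, h21, h13, h31, h22,
    h23, h32, h33, h1J, h2J, h3J, hJ1, hJ2, hJ3, hJJ, ca0, caJJ, smul_zero, add_zero, zero_add,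
    smul_smul]
  module

lemma MA_cube (y z κ : R) :
    MA y z κ ^ 3 = ca R N3 + (25 * κ ^ 3) • ca R J := by
  rw [pow_succ, MA_sq, MA]
  simp only [mul_add, add_mul, smul_mul_assoc, mul_smul_comm, mulc, h11, h12, h21, h13, h31, h22,
    h23, h32, h33, h1J, h2J, h3J, hJ1, hJ2, hJ3, hJJ, ca0, caJJ, smul_zero, add_zero, zero_add,
    smul_smul]
  module

lemma MA_pow (y z κ : R) (k : ℕ) :
    MA y z κ ^ (k + 4) = (5 ^ (k + 3) * κ ^ (k + 4)) • ca R J := by
  induction k with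
  | zero =>
    rw [zero_add, pow_succ, MA_cube, MA]
    simp only [mul_add, add_mul, smul_mul_assoc, mul_smul_comm, mulc, h11, h12, h21, h13, h31, h22,
      h23, h32, h33, h1J, h2J, h3J, hJ1, hJ2, hJ3, hJJ, ca0, caJJ, smul_zero, add_zero, zero_add,
      smul_smul]
    module
  | succ k ih =>
    rw [show k + 1 + 4 = (k + 4) + 1 by ring, pow_succ, ih, MA]
    simp only [mul_add, add_mul, smul_mul_assoc, mul_smul_comm, mulc, h11, h12, h21, h13, h31, h22,
      h23, h32, h33, h1J, h2J, h3J, hJ1, hJ2, hJ3, hJJ, ca0, caJJ, smul_zero, add_zero, zero_add,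
      smul_smul]
    module

/-- The difference of the first two diagonal entries, as a linear map. -/
def dd (A : Matrix (Fin 5) (Fin 5) R) : R := A 0 0 - A 1 1

lemma dd_one : dd (1 : Matrix (Fin 5) (Fin 5) R) = 0 := by simp [dd]

lemma dd_MA (y z κ : R) : dd (MA y z κ) = 4 * y + 16 * z := by
  simp [dd, MA, ca, N1, N2, N3, J]
  ring

lemma dd_MA2 (y z κ : R) : dd (MA y z κ ^ 2) = 4 + 32 * y := by
  rw [MA_sq]
  simp [dd, ca, N2, N3, J]
  ring

lemma dd_MA3 (y z κ : R) : dd (MA y z κ ^ 3) = 16 := by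
  rw [MA_cube]
  simp [dd, ca, N3, J]
  ring

lemma dd_MA4 (y z κ : R) (k : ℕ) : dd (MA y z κ ^ (k + 4)) = 0 := by
  rw [MA_pow]
  simp [dd, ca, J]

end

/-- Exponential entries: the tail vanishes and the head is a quadratic polynomial in `β`. -/
lemma exp_dd (y z κ β : ℂ) :
    dd (NormedSpace.exp (β • MA y z κ)) =
      β * (4 * y + 16 * z) + β ^ 2 / 2 * (4 + 32 * y) + β ^ 3 / 6 * 16 := by
  have hs : HasSum (fun n : ℕ => ((n.factorial : ℂ)⁻¹) • (β • MA y z κ) ^ n)
      (NormedSpace.exp (β • MA y z κ)) := by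
    open scoped Norms.Operator in
    exact NormedSpace.exp_series_hasSum_exp' (𝕂 := ℂ) (β • MA y z κ)
  have hc : Continuous (dd : Matrix (Fin 5) (Fin 5) ℂ → ℂ) := by
    unfold dd
    fun_prop
  let L : Matrix (Fin 5) (Fin 5) ℂ →+ ℂ :=
    { toFun := dd
      map_zero' := by simp [dd]
      map_add' := by intro A B; simp [dd]; ring }
  have h2 := hs.map L hc
  have h3 : HasSum (L ∘ fun n : ℕ => ((n.factorial : ℂ)⁻¹) • (β • MA y z κ) ^ n)
      (∑ n ∈ Finset.range 4, (L ∘ fun n : ℕ => ((n.factorial : ℂ)⁻¹) • (β • MA y z κ) ^ n) n) := by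
    apply hasSum_sum_of_ne_finset_zero
    intro n hn
    have hn4 : 4 ≤ n := by simpa using hn
    obtain ⟨k, rfl⟩ := Nat.exists_eq_add_of_le' hn4
    simp only [Function.comp]
    have : L (((Nat.factorial (k + 4) : ℂ)⁻¹) • (β • MA y z κ) ^ (k + 4))
        = ((Nat.factorial (k + 4) : ℂ)⁻¹) * (β ^ (k + 4) * dd (MA y z κ ^ (k + 4))) := by
      change dd _ = _
      rw [smul_pow]
      simp only [dd, Matrix.smul_apply, smul_eq_mul]
      ring
    rw [this, dd_MA4]
    ring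
  have h4 := h2.unique h3
  change dd _ = _ at h4
  rw [h4]
  have key : ∀ n : ℕ, (L ∘ fun n : ℕ => ((n.factorial : ℂ)⁻¹) • (β • MA y z κ) ^ n) n
      = ((Nat.factorial n : ℂ)⁻¹) * (β ^ n * dd (MA y z κ ^ n)) := by
    intro n
    change dd _ = _
    rw [smul_pow]
    simp only [dd, Matrix.smul_apply, smul_eq_mul]
    ring
  simp only [Finset.sum_range_succ, Finset.sum_range_zero, key, dd_MA2, dd_MA3]
  simp only [pow_zero, pow_one, dd_one, dd_MA, Nat.factorial]
  push_cast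
  ring

lemma conj_alg {β : ℂ} (hβ : IsAlgebraic ℚ β) : IsAlgebraic ℚ ((starRingEnd ℂ) β) := by
  obtain ⟨p, hp, h⟩ := hβ
  refine ⟨p, hp, ?_⟩
  have := congrArg (starRingEnd ℂ) h
  rw [map_zero] at this
  rw [← this]
  have h2 : (starRingEnd ℂ) ((Polynomial.aeval β) p) = (Polynomial.aeval ((starRingEnd ℂ) β)) p := by
    rw [Polynomial.aeval_def, Polynomial.aeval_def, Polynomial.hom_eval₂]
    congr 1
    ext q
    simp
  exact h2.symm

lemma re_alg {β : ℂ} (hβ : IsAlgebraic ℚ β) : IsAlgebraic ℚ β.re := by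
  have h := (hβ.add (conj_alg hβ)).mul (isAlgebraic_algebraMap (R := ℚ) (A := ℂ) (1 / 2 : ℚ))
  have h2 : (β + (starRingEnd ℂ) β) * (algebraMap ℚ ℂ (1 / 2 : ℚ)) = algebraMap ℝ ℂ β.re := by
    rw [Complex.add_conj]
    simp
    ring
  rw [h2] at h
  exact (isAlgebraic_algebraMap_iff (algebraMap ℝ ℂ).injective).1 h

lemma nsq_alg {β : ℂ} (hβ : IsAlgebraic ℚ β) : IsAlgebraic ℚ (Complex.normSq β) := by
  have h := hβ.mul (conj_alg hβ)
  rw [Complex.mul_conj] at h
  exact (isAlgebraic_algebraMap_iff (algebraMap ℝ ℂ).injective).1 h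

lemma int_alg (n : ℤ) : IsAlgebraic ℚ (n : ℝ) := isAlgebraic_intCast n

lemma rat_alg (q : ℚ) : IsAlgebraic ℚ (q : ℝ) := isAlgebraic_algebraMap q

lemma MA_map (y z κ : ℝ) :
    (MA y z κ).map (algebraMap ℝ ℂ) = MA (y : ℂ) (z : ℂ) (κ : ℂ) := by
  ext i j
  simp [MA, ca]

lemma not_diag (y z κ : ℂ) :
    ¬ ∃ (P : Matrix (Fin 5) (Fin 5) ℂ) (d : Fin 5 → ℂ), IsUnit P ∧
      MA y z κ = P * diagonal d * P⁻¹ := by
  rintro ⟨P, d, hP, hA⟩
  have hdet : IsUnit P.det := (Matrix.isUnit_iff_isUnit_det _).1 hP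
  have hinv : P⁻¹ * P = 1 := Matrix.nonsing_inv_mul _ hdet
  -- the vector `b = (0,0,1,-1,0)` satisfies `A (A b) = 0` and `A b ≠ 0`
  set b : Fin 5 → ℂ := ![0, 0, 1, -1, 0] with hb
  have hAb : MA y z κ *ᵥ b = ![2, -2, 0, 0, 0] := by
    ext i
    fin_cases i <;>
      simp [MA, ca, N1, N2, N3, J, Matrix.mulVec, dotProduct, Fin.sum_univ_succ, hb]
  have hAAb : MA y z κ *ᵥ (MA y z κ *ᵥ b) = 0 := by
    rw [hAb]
    ext i
    fin_cases i <;>
      simp [MA, ca, N1, N2, N3, J, Matrix.mulVec, dotProduct, Fin.sum_univ_succ]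
  -- pass to the diagonal form
  have e1 : P⁻¹ *ᵥ (MA y z κ *ᵥ b) = diagonal d *ᵥ (P⁻¹ *ᵥ b) := by
    rw [hA, Matrix.mulVec_mulVec, Matrix.mulVec_mulVec, ← Matrix.mul_assoc, ← Matrix.mul_assoc, hinv,
      Matrix.one_mul]
  have e2 : P⁻¹ *ᵥ (MA y z κ *ᵥ (MA y z κ *ᵥ b)) = diagonal d *ᵥ (P⁻¹ *ᵥ (MA y z κ *ᵥ b)) := by
    generalize MA y z κ *ᵥ b = w
    rw [hA, Matrix.mulVec_mulVec, Matrix.mulVec_mulVec, ← Matrix.mul_assoc, ← Matrix.mul_assoc, hinv,
      Matrix.one_mul]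
  rw [hAAb, Matrix.mulVec_zero, e1] at e2
  have e3 : diagonal d *ᵥ (P⁻¹ *ᵥ b) = 0 := by
    ext i
    have := congrFun e2 i
    rw [Matrix.mulVec_diagonal, Matrix.mulVec_diagonal] at this
    rw [Matrix.mulVec_diagonal]
    simp only [Pi.zero_apply] at this ⊢
    rcases mul_eq_zero.1 this.symm with h | h
    · rw [h, zero_mul]
    · exact h
  rw [← e1] at e3
  have e4 : P *ᵥ (P⁻¹ *ᵥ (MA y z κ *ᵥ b)) = MA y z κ *ᵥ b := by
    rw [Matrix.mulVec_mulVec, Matrix.mul_nonsing_inv _ hdet, Matrix.one_mulVec]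
  rw [e3, Matrix.mulVec_zero, hAb] at e4
  have := congrFun e4 0
  simp at this

/-- **Main theorem.** For every nonzero algebraic number `β` there is a real `5 × 5` matrix `A` with
positive algebraic entries, not diagonalizable over `ℂ`, and two vertices `i, j` with
`[exp (β A)] i i = [exp (β A)] j j` which are not cospectral. -/
theorem result (β : ℂ) (_hβ0 : β ≠ 0) (hβ : IsAlgebraic ℚ β) :
    ∃ A : Matrix (Fin 5) (Fin 5) ℝ,
      (∀ u v, 0 < A u v ∧ IsAlgebraic ℚ (A u v)) ∧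
      (¬ ∃ (P : Matrix (Fin 5) (Fin 5) ℂ) (d : Fin 5 → ℂ), IsUnit P ∧
          A.map (algebraMap ℝ ℂ) = P * diagonal d * P⁻¹) ∧
      ∃ i j : Fin 5,
        NormedSpace.exp (β • A.map (algebraMap ℝ ℂ)) i i =
          NormedSpace.exp (β • A.map (algebraMap ℝ ℂ)) j j ∧
        ∃ r : ℕ, (A ^ r) i i ≠ (A ^ r) j j := by
  set y : ℝ := -(β.re / 3) - 1 / 8 with hy
  set z : ℝ := Complex.normSq β / 6 - y / 4 with hz
  obtain ⟨κ, hκ⟩ := exists_nat_gt (16 * |y| + 32 * |z| + 4)
  refine ⟨MA y z (κ : ℝ), ?_, ?_, 0, 1, ?_, 3, ?_⟩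
  · have hya : IsAlgebraic ℚ y := by
      have h := ((re_alg hβ).mul (rat_alg (1 / 3))).neg.sub (rat_alg (1 / 8))
      have e : y = -(β.re * ((1 / 3 : ℚ) : ℝ)) - ((1 / 8 : ℚ) : ℝ) := by
        rw [hy]; push_cast; ring
      rw [e]
      exact h
    have hza : IsAlgebraic ℚ z := by
      have h := ((nsq_alg hβ).mul (rat_alg (1 / 6))).sub (hya.mul (rat_alg (1 / 4)))
      have e : z = Complex.normSq β * ((1 / 6 : ℚ) : ℝ) - y * ((1 / 4 : ℚ) : ℝ) := by
        rw [hz]; push_cast; ring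
      rw [e]
      exact h
    intro u v
    constructor
    · have hyl := neg_abs_le y
      have hyr := le_abs_self y
      have hzl := neg_abs_le z
      have hzr := le_abs_self z
      have hy0 := abs_nonneg y
      have hz0 := abs_nonneg z
      have hκ0 : 0 < κ := by
        have : (0 : ℝ) < (κ : ℝ) := by linarith
        exact_mod_cast this
      fin_cases u <;> fin_cases v <;> simp [MA, ca, N1, N2, N3, J, hκ0] <;> linarith
    · simp only [MA, Matrix.add_apply, Matrix.smul_apply, smul_eq_mul, ca, RingHom.mapMatrix_apply,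
        Matrix.map_apply, Int.coe_castRingHom]
      exact (((int_alg _).add (hya.mul (int_alg _))).add (hza.mul (int_alg _))).add
        ((isAlgebraic_natCast κ).mul (int_alg _))
  · rw [MA_map]
    exact not_diag _ _ _
  · rw [MA_map]
    have h := exp_dd (y : ℂ) (z : ℂ) ((κ : ℝ) : ℂ) β
    have hzero : β * (4 * (y : ℂ) + 16 * (z : ℂ)) + β ^ 2 / 2 * (4 + 32 * (y : ℂ)) + β ^ 3 / 6 * 16
        = 0 := by
      have h1 : (Complex.normSq β : ℂ) = β * (starRingEnd ℂ) β := (Complex.mul_conj β).symm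
      have h2 : (2 * β.re : ℂ) = β + (starRingEnd ℂ) β := by
        rw [Complex.add_conj]; push_cast; ring
      have hy' : (y : ℂ) = -((2 * β.re : ℂ) / 6) - 1 / 8 := by
        rw [hy]; push_cast; ring
      have hz' : (z : ℂ) = (Complex.normSq β : ℂ) / 6 - (y : ℂ) / 4 := by
        rw [hz]; push_cast; ring
      rw [hz', h1, hy', h2]
      ring
    rw [hzero] at h
    exact sub_eq_zero.1 h
  · intro h
    have := dd_MA3 y z (κ : ℝ)
    rw [dd, h, sub_self] at this
    norm_num at this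

end Pool.Agent.Results.MP_513688_co.EveryBeta
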